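import Pool.Agent.H.MP_0b4183_an.B

set_option autoImplicit false
open Filter Topology Set Metric Module

namespace Pool.Agent.H.MP_0b4183_an

variable {E F : Type} [NormedAddCommGroup E] [NormedSpace ℂ E] [FiniteDimensional ℂ E]
  [NormedAddCommGroup F] [NormedSpace ℂ F] [FiniteDimensional ℂ F]

noncomputable abbrev rk (Γ : E → F) (y : E) : ℕ := finrank ℂ (LinearMap.range (fderiv ℂ Γ y : E →ₗ[ℂ] F))
noncomputable abbrev Kr (Γ : E → F) (y : E) : Submodule ℂ E := LinearMap.ker (fderiv ℂ Γ y : E →ₗ[ℂ] F)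

def Ext (Γ : E → F) (Ω : Set E) (k m : ℕ) (ξ : E) : Prop :=
  ∃ U : Set E, IsOpen U ∧ ξ ∈ U ∧ U ⊆ Ω ∧ ∃ v : Fin m → E → E, (∀ i, ContinuousOn (v i) U) ∧
    (∀ η ∈ U, LinearIndependent ℂ (fun i => v i η)) ∧
    (∀ η ∈ U, rk Γ η = k → Submodule.span ℂ (range (fun i => v i η)) = Kr Γ η)

lemma proj_field {m : ℕ} {U : Set E} (hU : IsOpen U) {η : E} (hη : η ∈ U) (v : Fin m → E → E)
    (hv : ∀ i, ContinuousOn (v i) U) (hl : LinearIndependent ℂ (fun i => v i η)) :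
    ∃ (U1 : Set E) (π : E →L[ℂ] (Fin m → ℂ)) (Q : E → (Fin m → ℂ) →L[ℂ] E), IsOpen U1 ∧ η ∈ U1 ∧
      U1 ⊆ U ∧ ContinuousOn Q U1 ∧ ∀ y ∈ U1, (∀ c, π (Q y c) = c) ∧
        (∀ c, Q y c ∈ Submodule.span ℂ (range (fun i => v i y))) ∧
        ∀ w ∈ Submodule.span ℂ (range (fun i => v i y)), Q y (π w) = w := by
  let G : E → (Fin m → ℂ) →L[ℂ] E := fun y =>
    ∑ i, (ContinuousLinearMap.proj (R := ℂ) (φ := fun _ : Fin m => ℂ) i).smulRight (v i y)
  have hG : ∀ y c, G y c = ∑ i, c i • v i y := fun y c => by simp [G]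
  have hGc : ContinuousOn G U := continuousOn_finsetSum _ fun i _ =>
    ((ContinuousLinearMap.smulRightL ℂ (Fin m → ℂ) E
      (ContinuousLinearMap.proj i)).continuous.comp_continuousOn (hv i))
  obtain ⟨p, hp⟩ := LinearMap.exists_leftInverse_of_injective (G η : (Fin m → ℂ) →ₗ[ℂ] E)
    (LinearMap.ker_eq_bot'.2 fun c hc => funext (Fintype.linearIndependent_iff.1 hl c
      ((hG η c).symm.trans hc)))
  let π := LinearMap.toContinuousLinearMap p
  have hT : ContinuousOn (fun y => π ∘L G y) U := continuousOn_const.clm_comp hGc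
  refine ⟨U ∩ (fun y => π ∘L G y) ⁻¹' {T | IsUnit T}, π,
    fun y => G y ∘L Ring.inverse (π ∘L G y), hT.isOpen_inter_preimage hU Units.isOpen, ⟨hη, ?_⟩,
    inter_subset_left, (hGc.mono inter_subset_left).clm_comp fun y hy => ?_, fun y hy => ⟨?_, ?_, ?_⟩⟩
  · have : π ∘L G η = 1 := ContinuousLinearMap.ext fun c => LinearMap.congr_fun hp c
    simp [this]
  · obtain ⟨u, hu⟩ := hy.2
    exact ContinuousAt.comp_continuousWithinAt (f := fun y => π ∘L G y)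
      (hu ▸ NormedRing.inverse_continuousAt u) ((hT y hy.1).mono inter_subset_left)
  · intro c
    exact congrArg (fun T : (Fin m → ℂ) →L[ℂ] (Fin m → ℂ) => T c) (Ring.mul_inverse_cancel _ hy.2)
  · intro c
    rw [ContinuousLinearMap.comp_apply, hG]
    exact Submodule.sum_mem _ fun i _ => Submodule.smul_mem _ _ (Submodule.subset_span ⟨i, rfl⟩)
  · intro w hw
    obtain ⟨c, rfl⟩ := (Submodule.mem_span_range_iff_exists_fun ℂ).1 hw
    rw [← hG]
    exact congrArg (fun T : (Fin m → ℂ) →L[ℂ] (Fin m → ℂ) => G y (T c))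
      (Ring.inverse_mul_cancel _ hy.2)

lemma diff_sol {G : Type} [NormedAddCommGroup G] [NormedSpace ℂ G] [FiniteDimensional ℂ G]
    {B : E → E →L[ℂ] G} {X : E → E} {y : E} {c : G} (hB : DifferentiableAt ℂ B y)
    (hi : ∀ w, B y w = 0 → w = 0) (h : ∀ᶠ z in 𝓝 y, B z (X z) = c) : DifferentiableAt ℂ X y := by
  haveI := FiniteDimensional.complete ℂ E
  obtain ⟨p, hp⟩ := LinearMap.exists_leftInverse_of_injective (B y : E →ₗ[ℂ] G)
    (LinearMap.ker_eq_bot'.2 hi)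
  let Λ := LinearMap.toContinuousLinearMap p
  have hD : DifferentiableAt ℂ (fun z => Λ ∘L B z) y := (differentiableAt_const _).clm_comp hB
  have h1 : IsUnit (Λ ∘L B y) := by
    have : Λ ∘L B y = 1 := ContinuousLinearMap.ext fun c => LinearMap.congr_fun hp c
    simp [this]
  refine ((hD.inverse h1).clm_apply (differentiableAt_const (Λ c))).congr_of_eventuallyEq ?_
  filter_upwards [h, hD.continuousAt.eventually (Units.isOpen.mem_nhds h1)] with z h2 h3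
  rw [← h2]
  exact (congrArg (fun T : E →L[ℂ] E => T (X z)) (Ring.inverse_mul_cancel _ h3)).symm

omit [FiniteDimensional ℂ E] [FiniteDimensional ℂ F] in
lemma tend_app {α : Type} {l : Filter α} {T : α → E →L[ℂ] F} {x : α → E} {T0 : E →L[ℂ] F} {x0 : E}
    (h1 : Tendsto T l (𝓝 T0)) (h2 : Tendsto x l (𝓝 x0)) :
    Tendsto (fun a => T a (x a)) l (𝓝 (T0 x0)) :=
  ((isBoundedBilinearMap_apply (𝕜 := ℂ) (E := E) (F := F)).continuous.tendsto (T0, x0)).comp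
    (h1.prodMk_nhds h2)

theorem transfer {Γ : E → F} {Ω : Set E} {k m : ℕ} {q : E → ℂ} (hΩ : IsOpen Ω)
    (hΓ : AnalyticOnNhd ℂ Γ Ω) (hq : AnalyticOnNhd ℂ q Ω) (hD : ∀ y ∈ Ω, y ∈ closure {z | q z ≠ 0})
    (hg : ∀ y ∈ Ω, q y ≠ 0 → rk Γ y = k) (hm : ∀ y, rk Γ y = k → finrank ℂ (Kr Γ y) = m)
    (hA : ∀ y ∈ Ω, rk Γ y = k → ∀ z ∈ Ω, z - y ∈ Kr Γ y → Γ z = Γ y)
    {ξ u : E} {R : ℝ} (hR : ball ξ R ⊆ Ω) (hu : 2 * ‖u‖ < R) (ζ w : ℕ → E)
    (hζ : Tendsto ζ atTop (𝓝 ξ)) (hw : Tendsto w atTop (𝓝 u)) (h1 : ∀ j, q (ζ j) ≠ 0)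
    (h2 : ∀ᶠ j in atTop, w j ∈ Kr Γ (ζ j)) (h : Ext Γ Ω k m (ξ + u)) : Ext Γ Ω k m ξ := by
  haveI := FiniteDimensional.complete ℂ E
  haveI := FiniteDimensional.complete ℂ F
  obtain ⟨U, hU, hη, hUΩ, v, hv, hl, hs⟩ := h
  obtain ⟨U1, π, Q, hU1, hη1, hU1U, hQ, hP⟩ := proj_field hU hη v hv (hl _ hη)
  have fib : ∀ y ∈ Ω, q y ≠ 0 → ∀ z ∈ Ω, z - y ∈ Kr Γ y → Kr Γ y ≤ Kr Γ z := by
    intro y hy hqy z hz hzy a ha
    refine dir_zero (hΓ z hz).differentiableAt ?_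
    have : Tendsto (fun s : ℂ => z + s • a) (𝓝 0) (𝓝 z) := Continuous.tendsto' (by fun_prop) _ _ (by simp)
    filter_upwards [this (hΩ.mem_nhds hz)] with s hs
    rw [hA y hy (hg y hy hqy) z hz hzy, hA y hy (hg y hy hqy) _ hs]
    rw [add_sub_right_comm]
    exact Submodule.add_mem _ hzy (Submodule.smul_mem _ _ ha)
  have sp : ∀ y ∈ U1, q y ≠ 0 → Submodule.span ℂ (range fun i => v i y) = Kr Γ y :=
    fun y hy hqy => hs y (hU1U hy) (hg y (hUΩ (hU1U hy)) hqy)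
  obtain ⟨X, hX⟩ : ∃ X : E → E, X = fun y => Q y (π u) := ⟨_, rfl⟩
  have hXc : ContinuousOn X U1 := hX ▸ hQ.clm_apply continuousOn_const
  have hXK : ∀ y ∈ U1, q y ≠ 0 → X y ∈ Kr Γ y := fun y hy hqy => by
    rw [← sp y hy hqy, hX]; exact (hP y hy).2.1 _
  have hXu : X (ξ + u) = u := by
    have t1 : Tendsto (fun j => Q (ζ j + w j) (π (w j))) atTop (𝓝 (X (ξ + u))) := by
      rw [hX]
      exact tend_app ((hQ.continuousAt (hU1.mem_nhds hη1)).tendsto.comp (hζ.add hw))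
        ((π.continuous.tendsto u).comp hw)
    refine tendsto_nhds_unique t1 (hw.congr' ?_)
    have t2 : Tendsto (fun j => ‖ζ j - ξ‖ + 2 * ‖w j‖) atTop (𝓝 (‖ξ - ξ‖ + 2 * ‖u‖)) :=
      (hζ.sub_const ξ).norm.add (hw.norm.const_mul 2)
    filter_upwards [h2, (hζ.add hw) (hU1.mem_nhds hη1), t2 (Iio_mem_nhds (by simpa using hu))]
      with j j1 j2 j3
    have hm : ∀ s ∈ ball (0 : ℂ) 2, ζ j + s • w j ∈ Ω := fun s hs => hR (by
      rw [mem_ball_zero_iff] at hs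
      rw [mem_ball_iff_norm, add_sub_right_comm]
      refine (norm_add_le _ _).trans_lt (lt_of_le_of_lt ?_ j3)
      rw [norm_smul]
      exact add_le_add le_rfl (mul_le_mul_of_nonneg_right hs.le (norm_nonneg _)))
    have hz : ζ j ∈ Ω := by simpa using hm 0 (by simp)
    have t3 : Tendsto (fun s : ℂ => ζ j + s • w j) (𝓝[≠] 1) (𝓝 (ζ j + w j)) :=
      (Continuous.tendsto' (by fun_prop) _ _ (by simp)).mono_left nhdsWithin_le_nhds
    refine tendsto_nhds_unique (tendsto_const_nhds.congr' ?_)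
      (tend_app ((hQ.continuousAt (hU1.mem_nhds j2)).tendsto.comp t3) tendsto_const_nhds)
    filter_upwards [line_ne hq hm (h1 j) (s0 := 1) (by simp), t3 (hU1.mem_nhds j2)] with s s1 s2
    refine ((hP _ s2).2.2 _ ?_).symm
    rw [sp _ s2 s1]
    exact fib _ hz (h1 j) _ (hUΩ (hU1U s2)) (by simpa using Submodule.smul_mem _ s j1) j1
  obtain ⟨U2, hU2⟩ : ∃ U2, U2 = U1 ∩ (fun y => ‖y - X y - ξ‖ + ‖X y‖) ⁻¹' Iio R := ⟨_, rfl⟩
  have o2 : IsOpen U2 := hU2 ▸ (((continuousOn_id.sub hXc).sub continuousOn_const).norm.add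
    hXc.norm).isOpen_inter_preimage hU1 isOpen_Iio
  have s2 : U2 ⊆ U1 := hU2 ▸ inter_subset_left
  have s3 : U2 ⊆ Ω := s2.trans (hU1U.trans hUΩ)
  have hη2 : ξ + u ∈ U2 := by
    rw [hU2]
    refine ⟨hη1, ?_⟩
    simp only [mem_preimage, hXu, mem_Iio]
    simp only [add_sub_cancel_right, sub_self, norm_zero, zero_add]
    linarith [norm_nonneg u]
  have hΦ : ∀ y ∈ U2, ∀ t ∈ ball (1 : ℂ) 1, y - t • X y ∈ Ω := by
    intro y hy t ht
    rw [hU2] at hy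
    refine hR ?_
    rw [mem_ball_iff_norm, show y - t • X y - ξ = y - X y - ξ - (t - 1) • X y by
      rw [sub_smul, one_smul]; abel]
    refine (norm_sub_le _ _).trans_lt (lt_of_le_of_lt ?_ hy.2)
    rw [norm_smul]
    have := mem_ball_iff_norm.1 ht
    exact add_le_add le_rfl (mul_le_of_le_one_left (norm_nonneg _) this.le)
  have ev : ∀ y ∈ U2, q y ≠ 0 → ∀ᶠ z in 𝓝 y, z ∈ U2 ∧ q z ≠ 0 := fun y hy hqy =>
    (o2.eventually_mem hy).and ((hq y (s3 hy)).continuousAt.eventually_ne hqy)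
  have hd : ∀ y ∈ U2, q y ≠ 0 → DifferentiableAt ℂ X y := by
    intro y hy hqy
    refine diff_sol (B := fun z => (fderiv ℂ Γ z).prod π) (c := (0, π u)) ?_ (fun a ha => ?_) ?_
    · exact (ContinuousLinearMap.prodₗᵢ ℂ).toContinuousLinearEquiv.differentiableAt.comp y
        ((hΓ.fderiv y (s3 hy)).differentiableAt.prodMk (differentiableAt_const π))
    · rw [ContinuousLinearMap.prod_apply, Prod.mk_eq_zero] at ha
      have := (hP y (s2 hy)).2.2 a (by rw [sp y (s2 hy) hqy]; exact ha.1)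
      rw [← this, ha.2, map_zero]
    · filter_upwards [ev y hy hqy] with z hz
      refine Prod.ext (hXK z (s2 hz.1) hz.2) ?_
      rw [hX]
      exact (hP z (s2 hz.1)).1 _
  have inj : ∀ y ∈ U2, q y ≠ 0 → ∀ t ∈ ball (1 : ℂ) 1, ∀ a, a - t • fderiv ℂ X y a = 0 → a = 0 := by
    intro y hy hqy t ht a ha
    have d1 := (hΓ _ (hΦ y hy t ht)).differentiableAt.hasFDerivAt.comp y
      ((hasFDerivAt_id y).sub ((hd y hy hqy).hasFDerivAt.const_smul t))
    have d2 := d1.unique ((hΓ y (s3 hy)).differentiableAt.hasFDerivAt.congr_of_eventuallyEq (by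
      filter_upwards [ev y hy hqy] with z hz
      exact hA z (s3 hz.1) (hg z (s3 hz.1) hz.2) _ (hΦ z hz.1 t ht) (by
        simpa using Submodule.smul_mem _ t (hXK z (s2 hz.1) hz.2))))
    have haK : a ∈ Kr Γ y := by
      change fderiv ℂ Γ y a = 0
      rw [← d2]
      change fderiv ℂ Γ _ (a - t • fderiv ℂ X y a) = 0
      rw [ha, map_zero]
    have : fderiv ℂ X y a = 0 := by
      refine dir_zero (hd y hy hqy) ?_
      have : Tendsto (fun s : ℂ => y + s • a) (𝓝 0) (𝓝 y) :=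
        Continuous.tendsto' (by fun_prop) _ _ (by simp)
      filter_upwards [this.eventually (ev y hy hqy)] with s hs
      have k1 := fib y (s3 hy) hqy _ (s3 hs.1) (by simpa using Submodule.smul_mem _ s haK)
        (hXK y (s2 hy) hqy)
      rw [← sp _ (s2 hs.1) hs.2] at k1
      have k2 := (hP _ (s2 hs.1)).2.2 _ k1
      have k3 : π (X y) = π u := by rw [hX]; exact (hP y (s2 hy)).1 _
      rw [← k2, k3, hX]
    simpa [this] using ha
  obtain ⟨L, hL, hL2⟩ := strict o2 (hq.mono s3) (hXc.mono s2) hd (fun y hy => hD y (s3 hy)) hη2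
  have hdet : (ContinuousLinearMap.id ℂ E - L).det ≠ 0 := by
    haveI := mem_closure_iff_nhdsWithin_neBot.1 (hD _ (s3 hη2))
    have t1 := (ContinuousLinearMap.continuous_det.tendsto _).comp
      ((tendsto_const_nhds (x := ContinuousLinearMap.id ℂ E)).sub hL2)
    refine norm_pos_iff.1 (lt_of_lt_of_le (by positivity : (0 : ℝ) < (1 / 2) ^ finrank ℂ E)
      (ge_of_tendsto t1.norm ?_))
    filter_upwards [self_mem_nhdsWithin, nhdsWithin_le_nhds (o2.mem_nhds hη2)] with y y1 y2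
    exact det_bd _ (inj y y2 y1)
  have hS : HasStrictFDerivAt (fun y => y - X y)
      ((ContinuousLinearMap.id ℂ E - L).toContinuousLinearEquivOfDetNeZero hdet : E →L[ℂ] E)
      (ξ + u) := by
    rw [ContinuousLinearMap.coe_toContinuousLinearEquivOfDetNeZero]
    exact (hasStrictFDerivAt_id _).sub hL
  let e := hS.toOpenPartialHomeomorph _
  have he : ∀ y, e y = y - X y := fun _ => rfl
  have hsrc : ξ + u ∈ e.source := hS.mem_toOpenPartialHomeomorph_source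
  have heη : e (ξ + u) = ξ := by rw [he, hXu, add_sub_cancel_right]
  have hΦ1 : ∀ y ∈ U2, y - X y ∈ Ω := fun y hy => by simpa using hΦ y hy 1 (by simp)
  have hv0 : ∀ y ∈ U2, ∀ i, fderiv ℂ Γ (y - X y) (v i y) = 0 := by
    intro y hy i
    haveI := mem_closure_iff_nhdsWithin_neBot.1 (hD _ (s3 hy))
    have c1 : ContinuousAt (fun y => fderiv ℂ Γ (y - X y) (v i y)) y :=
      ((hΓ.fderiv _ (hΦ1 y hy)).continuousAt.comp_of_eq
        (continuousAt_id.sub (hXc.continuousAt (hU1.mem_nhds (s2 hy)))) rfl).clm_apply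
        ((hv i).continuousAt (hU.mem_nhds (hU1U (s2 hy))))
    refine tendsto_nhds_unique (c1.tendsto.mono_left (nhdsWithin_le_nhds (s := {z | q z ≠ 0})))
      (tendsto_const_nhds.congr' ?_)
    filter_upwards [self_mem_nhdsWithin, nhdsWithin_le_nhds (o2.mem_nhds hy)] with z z1 z2
    refine (fib z (s3 z2) z1 _ (hΦ1 z z2) (by simpa using hXK z (s2 z2) z1) ?_).symm
    rw [← sp z (s2 z2) z1]
    exact Submodule.subset_span ⟨i, rfl⟩
  refine ⟨e.target ∩ e.symm ⁻¹' U2, e.isOpen_inter_preimage_symm o2, ⟨heη ▸ e.map_source hsrc, ?_⟩,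
    fun z hz => ?_, fun i z => v i (e.symm z), fun i => ?_, fun z hz => hl _ (hU1U (s2 hz.2)),
    fun z hz hr => ?_⟩
  · rw [mem_preimage, ← heη, e.left_inv hsrc]; exact hη2
  · rw [← e.right_inv hz.1]; exact hΦ1 _ hz.2
  · exact (hv i).comp (e.continuousOn_symm.mono inter_subset_left) fun z hz => hU1U (s2 hz.2)
  · refine Submodule.eq_of_le_of_finrank_eq (Submodule.span_le.2 ?_) ?_
    · rintro _ ⟨i, rfl⟩
      have := hv0 _ hz.2 i
      rwa [← he, e.right_inv hz.1] at this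
    · rw [finrank_span_eq_card (hl _ (hU1U (s2 hz.2))), hm z hr, Fintype.card_fin]

theorem main {Γ : E → F} {Ω : Set E} {k m : ℕ} (hΩ : IsOpen Ω) (hc : IsConnected Ω)
    (hΓ : AnalyticOnNhd ℂ Γ Ω) (hkm : k + m = finrank ℂ E) (hm : 0 < m)
    (hle : ∀ y ∈ Ω, rk Γ y ≤ k) (hex : ∃ y ∈ Ω, rk Γ y = k)
    (hA : ∀ y ∈ Ω, rk Γ y = k → ∃ V : Submodule ℂ E, finrank ℂ V = m ∧
      {η | η ∈ Ω ∧ Γ η = Γ y} = {η | η ∈ Ω ∧ η - y ∈ V})
    {ξ : E} (hξ : ξ ∈ Ω) (hn : ¬ Ext Γ Ω k m ξ) :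
    ∃ V : Submodule ℂ E, V ≠ ⊥ ∧ ∃ U ∈ 𝓝 ξ, ∀ η ∈ U, η - ξ ∈ V → η ∈ Ω ∧ ¬ Ext Γ Ω k m η := by
  haveI := FiniteDimensional.complete ℂ F
  haveI := FiniteDimensional.proper ℂ E
  obtain ⟨y0, hy0, h0⟩ := hex
  obtain ⟨q, hq, hq0, hq1⟩ := exists_q (fderiv ℂ Γ) hΓ.fderiv y0 k h0
  have hD : ∀ y ∈ Ω, y ∈ closure {z | q z ≠ 0} := by
    intro y hy
    by_contra h
    refine hq0 (hq.eqOn_zero_of_preconnected_of_eventuallyEq_zero hc.isPreconnected hy ?_ hy0)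
    filter_upwards [isClosed_closure.isOpen_compl.mem_nhds h] with z hz
    by_contra h1
    exact hz (subset_closure h1)
  have hg : ∀ y ∈ Ω, q y ≠ 0 → rk Γ y = k := fun y hy h => le_antisymm (hle y hy) (hq1 y h)
  have hK : ∀ y, rk Γ y = k → finrank ℂ (Kr Γ y) = m := fun y hy => by
    have := LinearMap.finrank_range_add_finrank_ker (fderiv ℂ Γ y : E →ₗ[ℂ] F)
    unfold rk at hy
    unfold Kr
    omega
  have hA' : ∀ y ∈ Ω, rk Γ y = k → ∀ z ∈ Ω, z - y ∈ Kr Γ y → Γ z = Γ y := by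
    intro y hy hr z hz hzy
    obtain ⟨V, hV, h⟩ := hA y hy hr
    have : V = Kr Γ y := by
      refine Submodule.eq_of_le_of_finrank_eq (fun a ha => ?_) (hV.trans (hK y hr).symm)
      refine dir_zero (hΓ y hy).differentiableAt ?_
      have : Tendsto (fun s : ℂ => y + s • a) (𝓝 0) (𝓝 y) :=
        Continuous.tendsto' (by fun_prop) _ _ (by simp)
      filter_upwards [this (hΩ.mem_nhds hy)] with s hs
      exact (h.ge ⟨hs, by simpa using V.smul_mem s ha⟩).2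
    exact (h.ge ⟨hz, this ▸ hzy⟩).2
  obtain ⟨R, hR, hb⟩ := Metric.isOpen_iff.1 hΩ ξ hξ
  obtain ⟨ζ, hζ, hl⟩ := mem_closure_iff_seq_limit.1 (hD ξ hξ)
  have hw : ∀ j, ∃ w ∈ sphere (0 : E) 1, ζ j ∈ Ω → w ∈ Kr Γ (ζ j) := by
    intro j
    obtain ⟨y, hy⟩ : ∃ y, q y ≠ 0 ∧ y ∈ Ω ∧ (ζ j ∈ Ω → y = ζ j) := by
      by_cases h : ζ j ∈ Ω
      exacts [⟨_, hζ j, h, fun _ => rfl⟩, ⟨y0, hq0, hy0, fun h' => absurd h' h⟩]
    obtain ⟨a, ha, h1⟩ := Submodule.exists_mem_ne_zero_of_ne_bot (p := Kr Γ y) fun h => by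
      have := hK y (hg y hy.2.1 hy.1)
      rw [h, finrank_bot] at this
      omega
    refine ⟨((‖a‖⁻¹ : ℝ) : ℂ) • a, by simp [norm_smul, h1], fun h => ?_⟩
    rw [← hy.2.2 h]
    exact Submodule.smul_mem _ _ ha
  choose w hw1 hw2 using hw
  obtain ⟨w0, h1, φ, hφ, h2⟩ := (isCompact_sphere (0 : E) 1).tendsto_subseq hw1
  refine ⟨Submodule.span ℂ {w0}, ?_, ball ξ (R / 2), ball_mem_nhds _ (half_pos hR),
    fun η hη h3 => ⟨hb (ball_subset_ball (half_le_self hR.le) hη), fun h4 => hn ?_⟩⟩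
  · rw [Ne, Submodule.span_singleton_eq_bot]
    rintro rfl
    simp at h1
  obtain ⟨c, hc⟩ := Submodule.mem_span_singleton.1 h3
  refine transfer hΩ hΓ hq hD hg hK hA' hb (u := η - ξ) (by linarith [mem_ball_iff_norm.1 hη])
    (ζ ∘ φ) (fun j => c • w (φ j)) (hl.comp hφ.tendsto_atTop) (hc ▸ h2.const_smul c)
    (fun j => hζ _) ?_ (by simpa using h4)
  filter_upwards [(hl.comp hφ.tendsto_atTop) (hΩ.mem_nhds hξ)] with j hj
  exact Submodule.smul_mem _ _ (hw2 _ hj)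

end Pool.Agent.H.MP_0b4183_an
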