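import Mathlib

set_option autoImplicit false
open Filter Topology Set Metric

namespace Pool.Agent.H.MP_0b4183_an

variable {E F : Type} [NormedAddCommGroup E] [NormedSpace ℂ E] [FiniteDimensional ℂ E]
  [NormedAddCommGroup F] [NormedSpace ℂ F] [FiniteDimensional ℂ F]

omit [FiniteDimensional ℂ E] in
lemma exists_q {Ω : Set E} (H : E → E →L[ℂ] F) (hH : AnalyticOnNhd ℂ H Ω) (y0 : E) (k : ℕ)
    (h : Module.finrank ℂ (LinearMap.range (H y0 : E →ₗ[ℂ] F)) = k) :
    ∃ q : E → ℂ, AnalyticOnNhd ℂ q Ω ∧ q y0 ≠ 0 ∧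
      ∀ y, q y ≠ 0 → k ≤ Module.finrank ℂ (LinearMap.range (H y : E →ₗ[ℂ] F)) := by
  let b := Module.finBasisOfFinrankEq ℂ _ h
  choose x hx using fun j => (b j).2
  obtain ⟨Λ, hΛ⟩ := LinearMap.exists_extend b.equivFun.toLinearMap
  let M : E → Matrix (Fin k) (Fin k) ℂ := fun y => Matrix.of fun i j => Λ (H y (x j)) i
  refine ⟨fun y => (M y).det, fun y hy => ?_, ?_, fun y hy => ?_⟩
  · simp only [Matrix.det_apply']
    refine Finset.analyticAt_fun_sum _ fun σ _ => analyticAt_const.mul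
      (Finset.analyticAt_fun_prod _ fun i _ => ?_)
    exact ((ContinuousLinearMap.proj (R := ℂ) (φ := fun _ : Fin k => ℂ) (σ i) ∘L
      LinearMap.toContinuousLinearMap Λ ∘L
      ContinuousLinearMap.apply ℂ F (x i)).analyticAt _).comp (hH y hy)
  · have : M y0 = 1 := by
      ext i j
      have h1 : Λ (b j) = b.equivFun (b j) := LinearMap.congr_fun hΛ (b j)
      have h2 : H y0 (x j) = b j := hx j
      simp only [M, Matrix.of_apply, h2, h1, Module.Basis.equivFun_self, Matrix.one_apply, eq_comm]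
    simp [this]
  · have h1 : LinearIndependent ℂ (M y).col :=
      Matrix.linearIndependent_cols_iff_isUnit.2 ((Matrix.isUnit_iff_isUnit_det _).2 hy.isUnit)
    have h2 : LinearIndependent ℂ fun j => (⟨H y (x j), x j, rfl⟩ :
        LinearMap.range (H y : E →ₗ[ℂ] F)) :=
      LinearIndependent.of_comp (Λ ∘ₗ Submodule.subtype _) h1
    simpa using h2.fintype_card_le_finrank

omit [FiniteDimensional ℂ E] in
lemma line_ne {U : Set E} {q : E → ℂ} (hq : AnalyticOnNhd ℂ q U) {z a : E} {R : ℝ}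
    (h : ∀ s ∈ ball (0 : ℂ) R, z + s • a ∈ U) (hz : q z ≠ 0) {s0 : ℂ} (hs : s0 ∈ ball (0 : ℂ) R) :
    ∀ᶠ s in 𝓝[≠] s0, q (z + s • a) ≠ 0 := by
  have hg : AnalyticOnNhd ℂ (fun s : ℂ => q (z + s • a)) (ball 0 R) := fun s hs =>
    (hq _ (h s hs)).comp_of_eq (by fun_prop) rfl
  refine (hg s0 hs).eventually_eq_zero_or_eventually_ne_zero.resolve_left fun h0 => hz ?_
  simpa using hg.eqOn_zero_of_preconnected_of_eventuallyEq_zero (convex_ball _ _).isPreconnected hs
    h0 (mem_ball_self (pos_of_mem_ball hs))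

omit [FiniteDimensional ℂ E] [FiniteDimensional ℂ F] in
lemma line_deriv {X : E → F} {z a : E} {s : ℂ} (h : DifferentiableAt ℂ X (z + s • a)) :
    HasDerivAt (fun s : ℂ => X (z + s • a)) (fderiv ℂ X (z + s • a) a) s := by
  have : HasDerivAt (fun s : ℂ => z + s • a) a s := by
    simpa using ((hasDerivAt_id s).smul_const a).const_add z
  exact h.hasFDerivAt.comp_hasDerivAt s this

omit [FiniteDimensional ℂ E] [FiniteDimensional ℂ F] in
lemma dir_zero {X : E → F} {z a : E} (h : DifferentiableAt ℂ X z)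
    (h0 : ∀ᶠ s in 𝓝 (0 : ℂ), X (z + s • a) = X z) : fderiv ℂ X z a = 0 := by
  have h1 := line_deriv (X := X) (z := z) (a := a) (s := 0) (by simpa using h)
  simpa using h1.unique ((hasDerivAt_const 0 (X z)).congr_of_eventuallyEq h0)

omit [FiniteDimensional ℂ E] in
lemma line_hol {U : Set E} (hU : IsOpen U) {q : E → ℂ} (hq : AnalyticOnNhd ℂ q U) {X : E → F}
    (hX : ContinuousOn X U) (hd : ∀ y ∈ U, q y ≠ 0 → DifferentiableAt ℂ X y) {z a : E} {R : ℝ}
    (h : ∀ s ∈ ball (0 : ℂ) R, z + s • a ∈ U) (hz : q z ≠ 0) :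
    AnalyticOnNhd ℂ (fun s : ℂ => X (z + s • a)) (ball 0 R) := by
  haveI := FiniteDimensional.complete ℂ F
  intro s hs
  refine Complex.analyticAt_of_differentiable_on_punctured_nhds_of_continuousAt ?_
    ((hX.continuousAt (hU.mem_nhds (h s hs))).comp_of_eq (by fun_prop) rfl)
  filter_upwards [line_ne hq h hz hs, nhdsWithin_le_nhds (isOpen_ball.mem_nhds hs)] with t h1 h2
  exact (line_deriv (hd _ (h t h2) h1)).differentiableAt

lemma strict {U : Set E} (hU : IsOpen U) {q : E → ℂ} (hq : AnalyticOnNhd ℂ q U) {X : E → F}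
    (hX : ContinuousOn X U) (hd : ∀ y ∈ U, q y ≠ 0 → DifferentiableAt ℂ X y)
    (hD : ∀ y ∈ U, y ∈ closure {z | q z ≠ 0}) {η : E} (hη : η ∈ U) :
    ∃ L, HasStrictFDerivAt X L η ∧ Tendsto (fderiv ℂ X) (𝓝[{z | q z ≠ 0}] η) (𝓝 L) := by
  haveI := FiniteDimensional.complete ℂ F
  haveI := FiniteDimensional.proper ℂ E
  obtain ⟨ρ, hρ, hb⟩ : ∃ ρ > 0, closedBall η (3 * ρ) ⊆ U := by
    obtain ⟨r, hr, h⟩ := nhds_basis_closedBall.mem_iff.1 (hU.mem_nhds hη)
    exact ⟨r / 3, by positivity, by rwa [mul_div_cancel₀ _ (by norm_num)]⟩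
  have huc := (isCompact_closedBall η (3 * ρ)).uniformContinuousOn_of_continuous (hX.mono hb)
  haveI := mem_closure_iff_nhdsWithin_neBot.1 (hD η hη)
  have hc : Cauchy (map (fderiv ℂ X) (𝓝[{z | q z ≠ 0}] η)) := by
    refine Metric.cauchy_iff.2 ⟨inferInstance, fun ε hε => ?_⟩
    obtain ⟨δ, hδ, h1⟩ := Metric.uniformContinuousOn_iff.1 huc (ε / 2 * ρ) (by positivity)
    refine ⟨_, image_mem_map (inter_mem_nhdsWithin _
      (ball_mem_nhds η (lt_min hρ (half_pos hδ)))), ?_⟩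
    rintro _ ⟨z, hz, rfl⟩ _ ⟨z', hz', rfl⟩
    rw [dist_eq_norm]
    refine (ContinuousLinearMap.opNorm_le_of_unit_norm (C := ε / 2) (by positivity)
      fun a ha => ?_).trans_lt (half_lt_self hε)
    have hm : ∀ w ∈ ball η (min ρ (δ / 2)), ∀ s ∈ ball (0 : ℂ) (2 * ρ),
        w + s • a ∈ closedBall η (3 * ρ) := by
      intro w hw s hs
      rw [mem_ball_zero_iff] at hs
      have := (mem_ball.1 hw).trans_le (min_le_left _ _)
      refine (dist_triangle _ w _).trans ?_
      rw [dist_self_add_left, norm_smul, ha]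
      linarith
    have a1 := line_hol hU hq hX hd (fun s hs => hb (hm z hz.2 s hs)) hz.1
    have a2 := line_hol hU hq hX hd (fun s hs => hb (hm z' hz'.2 s hs)) hz'.1
    have h0 : (0 : ℂ) ∈ ball (0 : ℂ) (2 * ρ) := mem_ball_self (by positivity)
    have d1 := line_deriv (hd _ (hb (hm z hz.2 0 h0)) (by simpa using hz.1))
    have d2 := line_deriv (hd _ (hb (hm z' hz'.2 0 h0)) (by simpa using hz'.1))
    have := Complex.norm_deriv_le_of_forall_mem_sphere_norm_le (c := 0) (C := ε / 2 * ρ) hρ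
      (((a1.sub a2).differentiableOn.mono (closure_ball_subset_closedBall.trans
        (closedBall_subset_ball (by linarith)))).diffContOnCl) fun s hs => by
        have hs' : s ∈ ball (0 : ℂ) (2 * ρ) := sphere_subset_ball (by linarith) hs
        have := h1 _ (hm z hz.2 s hs') _ (hm z' hz'.2 s hs') (by
          rw [dist_add_right]
          have a := (mem_ball.1 hz.2).trans_le (min_le_right _ _)
          have b := (mem_ball.1 hz'.2).trans_le (min_le_right _ _)
          linarith [dist_triangle_right z z' η])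
        rw [dist_eq_norm] at this
        exact this.le
    rw [(d1.sub d2).deriv, mul_div_cancel_right₀ _ hρ.ne'] at this
    simpa using this
  obtain ⟨L, hL⟩ := CompleteSpace.complete hc
  refine ⟨L, hasStrictFDerivAt_iff_isLittleO.2 (Asymptotics.isLittleO_iff.2 fun ε hε => ?_), hL⟩
  obtain ⟨δ, hδ, h1⟩ : ∃ δ > 0, ∀ z ∈ ball η (5 * δ), z ∈ U ∧ (q z ≠ 0 → ‖fderiv ℂ X z - L‖ ≤ ε) := by
    have h2 : ∀ᶠ z in 𝓝[{z | q z ≠ 0}] η, fderiv ℂ X z ∈ closedBall L ε :=
      hL (closedBall_mem_nhds L hε)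
    obtain ⟨r, hr, h⟩ := Metric.eventually_nhds_iff_ball.1
      ((hU.eventually_mem hη).and (eventually_nhdsWithin_iff.1 h2))
    refine ⟨r / 5, by positivity, fun z hz => ?_⟩
    rw [mul_div_cancel₀ _ (by norm_num)] at hz
    exact ⟨(h z hz).1, fun h3 => mem_closedBall_iff_norm.1 ((h z hz).2 h3)⟩
  have key : ∀ y' ∈ ball η δ, ∀ y ∈ ball η δ, q y ≠ 0 →
      ‖X y' - X y - L (y' - y)‖ ≤ ε * ‖y' - y‖ := by
    intro y' hy' y hy hq0
    have hm : ∀ s ∈ ball (0 : ℂ) 2, y + s • (y' - y) ∈ ball η (5 * δ) := by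
      intro s hs
      rw [mem_ball_zero_iff] at hs
      refine (dist_triangle _ y _).trans_lt ?_
      rw [dist_self_add_left, norm_smul, ← dist_eq_norm]
      have := dist_triangle_right y' y η
      nlinarith [mem_ball.1 hy, mem_ball.1 hy', norm_nonneg s, dist_nonneg (x := y') (y := y)]
    have a1 := line_hol hU hq hX hd (fun s hs => (h1 _ (hm s hs)).1) hq0
    have a2 : AnalyticOnNhd ℂ (fun s : ℂ => X (y + s • (y' - y)) - s • L (y' - y)) (ball 0 2) :=
      a1.sub fun s _ => by fun_prop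
    have := (convex_ball (0 : ℂ) 2).norm_image_sub_le_of_norm_deriv_le (C := ε * ‖y' - y‖)
      (fun s hs => (a2 s hs).differentiableAt) (fun s hs => ?_) (x := 0) (y := 1) (by simp)
      (by simp)
    · simpa [sub_right_comm] using this
    refine le_of_tendsto (x := 𝓝[≠] s)
      ((a2 s hs).deriv.continuousAt.norm.mono_left nhdsWithin_le_nhds) ?_
    filter_upwards [line_ne hq (fun s hs => (h1 _ (hm s hs)).1) hq0 hs,
      nhdsWithin_le_nhds (isOpen_ball.mem_nhds hs)] with t h2 h3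
    have := (line_deriv (hd _ (h1 _ (hm t h3)).1 h2)).fun_sub
      ((hasDerivAt_id t).smul_const (L (y' - y)))
    simp only [id, one_smul] at this
    rw [this.deriv, ← ContinuousLinearMap.sub_apply]
    exact (ContinuousLinearMap.le_opNorm _ _).trans (by gcongr; exact (h1 _ (hm t h3)).2 h2)
  filter_upwards [prod_mem_nhds (ball_mem_nhds η hδ) (ball_mem_nhds η hδ)] with p hp
  have hyU : p.2 ∈ U := (h1 _ (ball_subset_ball (by linarith) hp.2)).1
  haveI := mem_closure_iff_nhdsWithin_neBot.1 (hD _ hyU)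
  have hXc := hX.continuousAt (hU.mem_nhds hyU)
  refine le_of_tendsto_of_tendsto (b := 𝓝[{z | q z ≠ 0}] p.2)
    (f := fun y => ‖X p.1 - X y - L (p.1 - y)‖) (g := fun y => ε * ‖p.1 - y‖)
    (ContinuousAt.continuousWithinAt (by fun_prop)) (ContinuousAt.continuousWithinAt (by fun_prop))
    ?_
  filter_upwards [self_mem_nhdsWithin, nhdsWithin_le_nhds (isOpen_ball.mem_nhds hp.2)] with y h2 h3
  exact key _ hp.1 _ h3 h2

lemma det_bd (N : E →L[ℂ] E) (h : ∀ t ∈ ball (1 : ℂ) 1, ∀ w, w - t • N w = 0 → w = 0) :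
    (1 / 2 : ℝ) ^ Module.finrank ℂ E ≤ ‖(ContinuousLinearMap.id ℂ E - N).det‖ := by
  let f : Module.End ℂ E := ((ContinuousLinearMap.id ℂ E - N : E →L[ℂ] E) : E →ₗ[ℂ] E)
  have hs := IsAlgClosed.splits f.charpoly
  change _ ≤ ‖LinearMap.det f‖
  rw [Module.End.det_eq_prod_roots_charpoly_of_splits hs, ← LinearMap.charpoly_natDegree f,
    hs.natDegree_eq_card_roots]
  have k : ∀ s : Multiset ℂ, (∀ μ ∈ s, 1 / 2 ≤ ‖μ‖) → (1 / 2 : ℝ) ^ s.card ≤ ‖s.prod‖ := by
    intro s
    induction s using Multiset.induction_on with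
    | empty => simp
    | cons a s ih =>
      intro hs
      rw [Multiset.card_cons, Multiset.prod_cons, norm_mul, pow_succ']
      exact mul_le_mul (hs a (by simp)) (ih fun μ hμ => hs μ (by simp [hμ])) (by positivity)
        (norm_nonneg _)
  refine k _ fun μ hμ => le_of_not_gt fun hlt => ?_
  obtain ⟨w, hw⟩ := ((f.hasEigenvalue_iff_isRoot_charpoly μ).2
    (Polynomial.isRoot_of_mem_roots hμ)).exists_hasEigenvector
  have h1 : w - N w = μ • w := hw.apply_eq_smul
  have h2 : 1 / 2 < ‖1 - μ‖ := by linarith [norm_sub_norm_le 1 μ, norm_one (α := ℂ)]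
  have h3 : 1 - μ ≠ 0 := norm_pos_iff.1 (by linarith)
  refine hw.2 (h (1 - μ)⁻¹ ?_ w ?_)
  · rw [mem_ball_iff_norm, show (1 - μ)⁻¹ - 1 = μ / (1 - μ) by field_simp; ring, norm_div,
      div_lt_one (by linarith)]
    linarith
  · rw [show N w = (1 - μ) • w by rw [sub_smul, one_smul, ← h1]; abel, smul_smul,
      inv_mul_cancel₀ h3, one_smul, sub_self]

end Pool.Agent.H.MP_0b4183_an
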